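import Mathlib

open Set Filter Topology Pointwise

namespace Pool.Agent.Results.MP_405a2c_gt.NoLinearBase

section
variable {X : Type} (𝓔 : Set (Set (X × X)))

/-- `E[A]` -/
def ball (E : Set (X × X)) (A : Set X) : Set X := {y | ∃ x ∈ A, (x, y) ∈ E}
def Bounded (B : Set X) : Prop := ∃ E ∈ 𝓔, ∃ x, B ⊆ ball E {x}
def AsDisjoint (A B : Set X) : Prop := ∀ E ∈ 𝓔, Bounded 𝓔 (ball E A ∩ ball E B)
def AsNhd (U A : Set X) : Prop := ∀ E ∈ 𝓔, Bounded 𝓔 (ball E A \ U)
def Normal : Prop :=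
  ∀ A B, AsDisjoint 𝓔 A B → ∃ U V, Disjoint U V ∧ AsNhd 𝓔 U A ∧ AsNhd 𝓔 V B

def HasLinearBase (I : Set (Set X)) : Prop :=
  ∃ 𝓑 ⊆ I, (∀ A ∈ I, ∃ B ∈ 𝓑, A ⊆ B) ∧ IsChain (· ⊆ ·) 𝓑
end

section
variable {G : Type} [Group G]

def GroupIdeal (I : Set (Set G)) : Prop :=
  (∀ A ∈ I, ∀ B ∈ I, A ∪ B ∈ I) ∧ (∀ A ∈ I, ∀ B, B ⊆ A → B ∈ I) ∧ univ ∉ I ∧
    (∀ A : Set G, A.Finite → A ∈ I) ∧ ∀ A ∈ I, ∀ B ∈ I, A * B⁻¹ ∈ I

/-- the entourage `E_A` -/
def ent (A : Set G) : Set (G × G) := {p | p.2 ∈ A * {p.1} ∪ {p.1}}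

lemma bdd_iff {I : Set (Set G)} (h : GroupIdeal I) (B : Set G) : Bounded (ent '' I) B ↔ B ∈ I := by
  obtain ⟨h1, h2, -, h4, h5⟩ := h
  constructor
  · rintro ⟨_, ⟨A, hA, rfl⟩, x, hx⟩
    refine h2 _ (h1 _ (h5 A hA {x⁻¹} (h4 _ (finite_singleton _))) {x}
      (h4 _ (finite_singleton _))) _ fun y hy => ?_
    obtain ⟨_, rfl, hz⟩ := hx hy
    simpa [ent] using hz
  · exact fun hB => ⟨_, ⟨B, hB, rfl⟩, 1, fun y hy => ⟨1, rfl, Or.inl (by simpa using hy)⟩⟩

lemma ball_mem {I : Set (Set G)} (h : GroupIdeal I) {A K : Set G} (hA : A ∈ I) (hK : K ∈ I) :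
    ball (ent K) A ∈ I := by
  obtain ⟨h1, h2, -, h4, h5⟩ := h
  have hi : A⁻¹ ∈ I := by simpa using h5 {1} (h4 _ (finite_singleton _)) A hA
  refine h2 _ (h1 _ (h5 K hK _ hi) A hA) _ ?_
  rintro y ⟨x, hx, ⟨k, hk, z, hz, e⟩ | e⟩
  · exact Or.inl ⟨k, hk, z, by rw [show z = x from hz]; simpa using hx, e⟩
  · exact Or.inr (by rw [show y = x from e]; exact hx)

lemma normal_of {I : Set (Set G)} (h : GroupIdeal I)
    (u : ∀ A B, AsDisjoint (ent '' I) A B → A ∈ I ∨ B ∈ I) : Normal (ent '' I) := by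
  intro A B hAB
  have e : ∀ C : Set G, AsNhd (ent '' I) univ C := fun C E _ =>
    (bdd_iff h _).2 (h.2.2.2.1 _ (by simp))
  have f : ∀ C ∈ I, AsNhd (ent '' I) ∅ C := by
    rintro C hC _ ⟨K, hK, rfl⟩
    exact (bdd_iff h _).2 (by simpa using ball_mem h hC hK)
  rcases u A B hAB with k | k
  · exact ⟨∅, univ, by simp, f A k, e B⟩
  · exact ⟨univ, ∅, by simp, e A, f B k⟩
end

section
variable {K : Type} [CommGroup K] [TopologicalSpace K] [IsTopologicalGroup K] [CompactSpace K]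
  [T2Space K] [FirstCountableTopology K] (G H : Subgroup K)

def idl : Set (Set G) := {A | closure (Subtype.val '' A) ⊆ H}

variable (hGH : G ≤ H) (hd : Dense (G : Set K)) (hH : H ≠ ⊤)
  (h2 : ∀ a b, a ∉ H → b ∉ H → a * b⁻¹ ∈ H)

include hGH hd hH in
omit [FirstCountableTopology K] in
lemma gi : GroupIdeal (idl G H) := by
  refine ⟨fun A hA B hB => ?_, fun A hA B hB => (closure_mono (image_mono hB)).trans hA,
    fun h => hH ?_, fun A hA => ?_, fun A hA B hB => ?_⟩
  · show closure _ ⊆ _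
    rw [image_union, closure_union]; exact union_subset hA hB
  · have h' : closure (Subtype.val '' (univ : Set G)) ⊆ H := h
    rw [image_univ, Subtype.range_coe, hd.closure_eq] at h'
    exact top_unique fun x _ => h' trivial
  · show closure _ ⊆ _
    rw [(hA.image _).isClosed.closure_eq]
    rintro _ ⟨x, -, rfl⟩; exact hGH x.2
  · have hc : IsCompact (closure (Subtype.val '' A) * (closure (Subtype.val '' B))⁻¹ : Set K) :=
      isClosed_closure.isCompact.mul isClosed_closure.isCompact.inv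
    refine (closure_minimal ?_ hc.isClosed).trans ?_
    · rintro _ ⟨_, ⟨a, ha, b, hb, rfl⟩, rfl⟩
      exact ⟨a, subset_closure ⟨a, ha, rfl⟩, b, subset_closure ⟨b⁻¹, hb, rfl⟩, rfl⟩
    · rintro _ ⟨a, ha, b, hb, rfl⟩
      exact H.mul_mem (hA ha) (inv_mem_iff.1 (hB hb))

include hGH in
omit [IsTopologicalGroup K] [CompactSpace K] [FirstCountableTopology K] in
lemma seq_mem {c : ℕ → G} {x : K} (hc : Tendsto (fun n => (c n : K)) atTop (𝓝 x)) (hx : x ∈ H) :
    range c ∈ idl G H := by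
  refine (closure_minimal ?_ hc.isCompact_insert_range.isClosed).trans ?_
  · rintro _ ⟨_, ⟨n, rfl⟩, rfl⟩; exact Or.inr ⟨n, rfl⟩
  · rintro _ (rfl | ⟨n, rfl⟩)
    · exact hx
    · exact hGH (c n).2

omit [IsTopologicalGroup K] [CompactSpace K] [T2Space K] in
lemma seq_ex {A : Set G} {x : K} (hx : x ∈ closure (Subtype.val '' A)) :
    ∃ c : ℕ → G, (∀ n, c n ∈ A) ∧ Tendsto (fun n => (c n : K)) atTop (𝓝 x) := by
  obtain ⟨u, hu, hl⟩ := mem_closure_iff_seq_limit.1 hx
  choose c c1 c2 using hu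
  exact ⟨c, c1, by simpa only [c2] using hl⟩

include hGH hd hH h2 in
lemma nrm : Normal (ent '' idl G H) := by
  refine normal_of (gi G H hGH hd hH) fun A B hAB => ?_
  by_contra hn
  obtain ⟨hA, hB⟩ := not_or.1 hn
  obtain ⟨α, a1, a2⟩ := not_subset.1 hA
  obtain ⟨β, b1, b2⟩ := not_subset.1 hB
  obtain ⟨a, ha, hα⟩ := seq_ex G a1
  obtain ⟨b, hb, hβ⟩ := seq_ex G b1
  have hK := seq_mem G H hGH (c := fun n => a n * (b n)⁻¹) (hα.mul hβ.inv) (h2 α β a2 b2)
  have h := (bdd_iff (gi G H hGH hd hH) _).1 (hAB _ ⟨_, hK, rfl⟩)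
  refine a2 (h (mem_closure_of_tendsto hα (Eventually.of_forall fun n => ⟨a n, ⟨?_, ?_⟩, rfl⟩)))
  · exact ⟨a n, ha n, Or.inr rfl⟩
  · exact ⟨b n, hb n, Or.inl ⟨_, ⟨n, rfl⟩, b n, rfl, by simp⟩⟩

include hGH hd hH h2 in
lemma nolin [Countable G] : ¬ HasLinearBase (idl G H) := by
  rintro ⟨𝓑, b1, b2, b3⟩
  have g := gi G H hGH hd hH
  choose B B1 B2 using fun x : G => b2 {x} (g.2.2.2.1 _ (finite_singleton x))
  have cof : ∀ A ∈ idl G H, ∃ x, A ⊆ B x := by
    intro A hA
    obtain ⟨D, D1, D2⟩ := b2 A hA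
    by_contra hn
    push Not at hn
    refine g.2.2.1 (g.2.1 D (b1 D1) _ fun x _ => ?_)
    rcases b3.total D1 (B1 x) with k | k
    · exact absurd (D2.trans k) (hn x)
    · exact k (B2 x rfl)
  have cov : ∀ h ∈ H, ∃ x, h ∈ closure (Subtype.val '' B x) := by
    intro h hh
    obtain ⟨c, -, hc⟩ := seq_ex G (A := univ) (x := h)
      (by rw [image_univ, Subtype.range_coe]; exact hd h)
    obtain ⟨x, hx⟩ := cof _ (seq_mem G H hGH hc hh)
    exact ⟨x, mem_closure_of_tendsto hc (Eventually.of_forall fun n => ⟨c n, hx ⟨n, rfl⟩, rfl⟩)⟩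
  obtain ⟨α, hα⟩ : ∃ α, α ∉ H := by
    by_contra k
    push Not at k
    exact hH (top_unique fun x _ => k x)
  let F : G × Bool → Set K := fun p =>
    (fun y => y * (if p.2 = true then α else 1)⁻¹) ⁻¹' closure (Subtype.val '' B p.1)
  obtain ⟨p, y, hy⟩ := nonempty_interior_of_iUnion_of_closed (f := F)
    (fun p => isClosed_closure.preimage (continuous_mul_const _)) (by
      refine eq_univ_of_forall fun y => mem_iUnion.2 ?_
      by_cases hy : y ∈ H
      · obtain ⟨x, hx⟩ := cov y hy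
        exact ⟨(x, false), by simpa [F] using hx⟩
      · obtain ⟨x, hx⟩ := cov _ (h2 y α hy hα)
        exact ⟨(x, true), by simpa [F] using hx⟩)
  set c := (if p.2 = true then α else 1)⁻¹ with hc
  have h1 : y * c ∈ interior (H : Set K) := by
    have := (Homeomorph.mulRight c).preimage_interior (closure (Subtype.val '' B p.1))
    have h3 : y ∈ (Homeomorph.mulRight c) ⁻¹' interior (closure (Subtype.val '' B p.1)) := by
      rw [this]; exact hy
    exact interior_mono (b1 (B1 p.1)) h3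
  have ho : IsOpen (H : Set K) := H.isOpen_of_mem_nhds (mem_interior_iff_mem_nhds.1 h1)
  exact hα (closure_minimal hGH (H.isClosed_of_isOpen ho) (hd α))
end

abbrev K := ℕ → Multiplicative (ZMod 2)

def sub (f : Filter ℕ) : Subgroup K where
  carrier := {x | ∀ᶠ n in f, x n = 1}
  mul_mem' := fun h k => (h.and k).mono fun n hn => by simp [hn.1, hn.2]
  one_mem' := Eventually.of_forall fun _ => rfl
  inv_mem' := fun h => h.mono fun n hn => by simp [hn]

/-- A countable abelian group with a group ideal whose ballean is normal but which has no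
linearly ordered base. -/
theorem result : ∃ (G : Type) (_ : CommGroup G) (I : Set (Set G)), Countable G ∧
    GroupIdeal I ∧ Normal (ent '' I) ∧ ¬ HasLinearBase I := by
  classical
  have hGH : sub cofinite ≤ sub (hyperfilter ℕ) := fun x hx => hyperfilter_le_cofinite hx
  have hd : Dense (sub cofinite : Set K) := by
    intro x
    refine mem_closure_of_tendsto (f := fun n i => if i < n then x i else 1) (b := atTop) ?_
      (Eventually.of_forall fun n => ?_)
    · refine tendsto_pi_nhds.2 fun i => tendsto_const_nhds.congr' ?_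
      filter_upwards [eventually_gt_atTop i] with n hn
      simp [hn]
    · show ∀ᶠ i in cofinite, _
      rw [Nat.cofinite_eq_atTop]
      filter_upwards [eventually_ge_atTop n] with i hi
      simp [not_lt.2 hi]
  have hH : sub (hyperfilter ℕ) ≠ ⊤ := by
    intro h
    have : (fun _ => Multiplicative.ofAdd (1 : ZMod 2) : K) ∈ sub (hyperfilter ℕ) := by
      rw [h]; trivial
    obtain ⟨n, hn⟩ := Eventually.exists this
    exact absurd hn (show ¬ Multiplicative.ofAdd (1 : ZMod 2) = 1 by decide)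
  have h2 : ∀ a b : K, a ∉ sub (hyperfilter ℕ) → b ∉ sub (hyperfilter ℕ) →
      a * b⁻¹ ∈ sub (hyperfilter ℕ) := by
    intro a b ha hb
    have k : ∀ u v : Multiplicative (ZMod 2), ¬ u = 1 → ¬ v = 1 → u * v⁻¹ = 1 := by decide
    exact ((Ultrafilter.eventually_not.2 ha).and (Ultrafilter.eventually_not.2 hb)).mono
      fun n hn => k _ _ hn.1 hn.2
  have : Countable (sub cofinite) := by
    refine Function.Injective.countable (β := Finset ℕ)
      (f := fun x => (show {n | ¬ x.1 n = 1}.Finite from x.2).toFinset) fun x y h => ?_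
    have k : ∀ u v : Multiplicative (ZMod 2), (¬ u = 1 ↔ ¬ v = 1) → u = v := by decide
    refine Subtype.ext (funext fun n => k _ _ ?_)
    simpa using Finset.ext_iff.1 h n
  exact ⟨sub cofinite, inferInstance, idl _ (sub (hyperfilter ℕ)), this, gi _ _ hGH hd hH,
    nrm _ _ hGH hd hH h2, nolin _ _ hGH hd hH h2⟩

end Pool.Agent.Results.MP_405a2c_gt.NoLinearBase
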